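import Pool.Agent.H30.FA.TA

/-!
# Row DSP: the displacement
-/

set_option autoImplicit false

namespace Pool.Agent.H59.FA

open Pool.Agent.H30.FA

theorem pin_split {E : Type} [NormedAddCommGroup E] [InnerProductSpace ℂ E] {d : ℕ}
    (e : OrthonormalBasis (Fin d) ℂ E) (r : Fin d → ℝ) {δ δ' : ℝ} (h : δ' < δ) (z y : E) :
    pin e Finset.univ z y = pin e (Finset.univ.filter fun a => δ ≤ r a) z y +
      pin e (Finset.univ.filter fun a => δ' ≤ r a ∧ r a < δ) z y +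
      pin e (Finset.univ.filter fun a => r a < δ') z y := by
  unfold pin
  simp only [Finset.sum_filter]
  rw [← Finset.sum_add_distrib, ← Finset.sum_add_distrib]
  refine Finset.sum_congr rfl fun a _ => ?_
  by_cases h1 : δ ≤ r a
  · have h2 : ¬ (δ' ≤ r a ∧ r a < δ) := fun h => absurd h.2 (not_lt.2 h1)
    have h3 : ¬ (r a < δ') := by intro h; linarith
    rw [if_pos h1, if_neg h2, if_neg h3]; ring
  · by_cases h3 : r a < δ'
    · have h2 : ¬ (δ' ≤ r a ∧ r a < δ) := fun h => absurd h.1 (not_le.2 h3)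
      rw [if_neg h1, if_neg h2, if_pos h3]; ring
    · rw [if_neg h1, if_pos ⟨not_lt.1 h3, not_le.1 h1⟩, if_neg h3]; ring

theorem pf_DSP (hBAS : T_BAS) : T_DSP := by
  intro κ J E _ _ _ d C g δ δ' s₁ s₂ x y k hδ hδ' hs1 hs2 hx hy hhigh hmid hlow
  obtain ⟨-, -, -, -, -, -, -, hcard, hpin, hnorm, -⟩ := hBAS κ J E d C
  obtain ⟨z, hz⟩ : ∃ z, z = (g ^ (k + 1)) x - (g ^ k) x := ⟨_, rfl⟩
  rw [← hz] at hlow
  have hzle : ‖z‖ ≤ 2 := by
    rw [hz]
    refine (norm_sub_le _ _).trans ?_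
    rw [LinearIsometryEquiv.norm_map, LinearIsometryEquiv.norm_map, hx]
    norm_num
  have h0 : inner ℂ ((g ^ (k + 1)) x) y - inner ℂ ((g ^ k) x) y =
      pin C.e Finset.univ z y := by
    rw [← hpin, hz, inner_sub_left]
  rw [h0, pin_split C.e C.r hδ']
  -- the high part
  have hgk : (g ^ (k + 1)) x = g ((g ^ k) x) := by
    rw [pow_succ']; rfl
  have hH : ∀ a, δ ≤ C.r a → ‖inner ℂ z (C.e a)‖ ≤ s₁ := by
    intro a ha
    have h1 : inner ℂ ((g ^ k) x) (C.e a) = inner ℂ ((g ^ (k + 1)) x) (g (C.e a)) := by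
      rw [hgk, LinearIsometryEquiv.inner_map_map]
    have h2 : inner ℂ z (C.e a) = inner ℂ ((g ^ (k + 1)) x) (C.e a - g (C.e a)) := by
      rw [hz, inner_sub_left, h1, inner_sub_right]
    rw [h2]
    refine (norm_inner_le_norm _ _).trans ?_
    rw [LinearIsometryEquiv.norm_map, hx, one_mul, norm_sub_rev]
    exact hhigh a ha
  have hey : ∀ a, ‖inner ℂ (C.e a) y‖ ≤ 1 := by
    intro a
    refine (norm_inner_le_norm _ _).trans ?_
    rw [hy, C.e.norm_eq_one, one_mul]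
  have hA : ‖pin C.e (Finset.univ.filter fun a => δ ≤ C.r a) z y‖ ≤ s₁ / δ := by
    unfold pin
    refine (norm_sum_le _ _).trans ?_
    have h1 : ∑ a ∈ Finset.univ.filter (fun a => δ ≤ C.r a),
        ‖inner ℂ z (C.e a) * inner ℂ (C.e a) y‖ ≤
        ∑ _a ∈ Finset.univ.filter (fun a => δ ≤ C.r a), s₁ := by
      refine Finset.sum_le_sum fun a ha => ?_
      rw [norm_mul]
      calc ‖inner ℂ z (C.e a)‖ * ‖inner ℂ (C.e a) y‖ ≤ s₁ * 1 :=
            mul_le_mul (hH a (Finset.mem_filter.1 ha).2) (hey a) (norm_nonneg _) hs1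
        _ = s₁ := mul_one _
    refine h1.trans ?_
    rw [Finset.sum_const, nsmul_eq_mul, le_div_iff₀ hδ]
    have h2 := hcard δ hδ
    nlinarith
  -- the middle part
  have hB : ‖pin C.e (Finset.univ.filter fun a => δ' ≤ C.r a ∧ C.r a < δ) z y‖ ≤ 2 * s₂ := by
    unfold pin
    refine (norm_sum_le _ _).trans ?_
    simp only [norm_mul]
    have h1 := Finset.sum_mul_sq_le_sq_mul_sq
      (Finset.univ.filter (fun a => δ' ≤ C.r a ∧ C.r a < δ))
      (fun a => ‖inner ℂ z (C.e a)‖) (fun a => ‖inner ℂ (C.e a) y‖)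
    have h2 : ∑ a ∈ Finset.univ.filter (fun a => δ' ≤ C.r a ∧ C.r a < δ),
        ‖inner ℂ z (C.e a)‖ ^ 2 ≤ 2 ^ 2 := by
      calc ∑ a ∈ Finset.univ.filter (fun a => δ' ≤ C.r a ∧ C.r a < δ),
            ‖inner ℂ z (C.e a)‖ ^ 2 ≤ ∑ a, ‖inner ℂ z (C.e a)‖ ^ 2 :=
            Finset.sum_le_sum_of_subset_of_nonneg (Finset.filter_subset _ _)
              (fun _ _ _ => sq_nonneg _)
        _ = ‖z‖ ^ 2 := (hnorm z).symm
        _ ≤ 2 ^ 2 := pow_le_pow_left₀ (norm_nonneg _) hzle 2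
    have h3 : (∑ a ∈ Finset.univ.filter (fun a => δ' ≤ C.r a ∧ C.r a < δ),
        ‖inner ℂ z (C.e a)‖ * ‖inner ℂ (C.e a) y‖) ^ 2 ≤ (2 * s₂) ^ 2 := by
      refine h1.trans ?_
      rw [mul_pow]
      exact mul_le_mul h2 hmid (Finset.sum_nonneg fun _ _ => sq_nonneg _) (by norm_num)
    exact le_of_sq_le_sq h3 (by linarith)
  calc _ ≤ ‖pin C.e (Finset.univ.filter fun a => δ ≤ C.r a) z y +
        pin C.e (Finset.univ.filter fun a => δ' ≤ C.r a ∧ C.r a < δ) z y‖ +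
        ‖pin C.e (Finset.univ.filter fun a => C.r a < δ') z y‖ := norm_add_le _ _
    _ ≤ (‖pin C.e (Finset.univ.filter fun a => δ ≤ C.r a) z y‖ +
        ‖pin C.e (Finset.univ.filter fun a => δ' ≤ C.r a ∧ C.r a < δ) z y‖) +
        ‖pin C.e (Finset.univ.filter fun a => C.r a < δ') z y‖ := by
          have := norm_add_le (pin C.e (Finset.univ.filter fun a => δ ≤ C.r a) z y)
            (pin C.e (Finset.univ.filter fun a => δ' ≤ C.r a ∧ C.r a < δ) z y)
          linarith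
    _ ≤ s₁ / δ + 3 * s₂ := by linarith

end Pool.Agent.H59.FA
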