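import Pool.Agent.H30.FA.TA

/-!
# Row SMO: the Fourier coefficients are Lipschitz and equivariant
-/

set_option autoImplicit false

namespace Pool.Agent.H59.FA

open Pool.Agent.H30.FA

theorem norm_exp_w (w : ℤ) (θ : ℝ) : ‖Complex.exp (-(w * θ) * Complex.I)‖ = 1 := by
  have h : (-((w : ℂ) * (θ : ℂ)) * Complex.I) = ((-(w * θ) : ℝ) : ℂ) * Complex.I := by
    push_cast; ring
  rw [h, Complex.norm_exp_ofReal_mul_I]

theorem pf_SMO (hFLP : T_FLP) : T_SMO := by
  intro A D J _ k v w t t' x h h' l l' hW hW' hx
  -- continuity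
  have hcont : ∀ (s : J → ℝ) (a a' : V (k + 2)), Wt s →
      Continuous fun θ : ℝ => FV v s x a (Complex.exp (θ * Complex.I) • a') := by
    intro s a a' hs
    have h1 : Continuous fun y : V (k + 2) => FV v s x a y := by
      refine (LipschitzWith.of_dist_le_mul (K := 1) fun y z => ?_).continuous
      have h2 := (hFLP A D J k v s s x a y a z hs hs hx).2.2.2.1
      simp only [sub_self, abs_zero, Finset.sum_const_zero, mul_zero, norm_zero, zero_add] at h2
      rw [Real.dist_eq, dist_eq_norm, NNReal.coe_one, one_mul]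
      exact h2
    refine h1.comp ?_
    exact (Complex.continuous_exp.comp (Complex.continuous_ofReal.mul continuous_const)).smul
      continuous_const
  have hint : ∀ (s : J → ℝ) (a a' : V (k + 2)), Wt s →
      Continuous fun θ : ℝ => ((FV v s x a (Complex.exp (θ * Complex.I) • a') : ℝ) : ℂ) *
        Complex.exp (-(w * θ) * Complex.I) := by
    intro s a a' hs
    refine (Complex.continuous_ofReal.comp (hcont s a a' hs)).mul ?_
    exact Complex.continuous_exp.comp
      ((continuous_const.mul Complex.continuous_ofReal).neg.mul continuous_const)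
  constructor
  · unfold SV
    rw [← intervalIntegral.integral_sub ((hint t h h' hW).intervalIntegrable _ _)
      ((hint t' l l' hW').intervalIntegrable _ _)]
    have hb : ∀ θ : ℝ, ‖((FV v t x h (Complex.exp (θ * Complex.I) • h') : ℝ) : ℂ) *
        Complex.exp (-(w * θ) * Complex.I) -
        ((FV v t' x l (Complex.exp (θ * Complex.I) • l') : ℝ) : ℂ) *
        Complex.exp (-(w * θ) * Complex.I)‖ ≤
        Real.sqrt (D + 1) * ∑ j, |t j - t' j| + ‖h - l‖ + ‖h' - l'‖ := by
      intro θ
      rw [← sub_mul, norm_mul, norm_exp_w, mul_one, ← Complex.ofReal_sub, Complex.norm_real,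
        Real.norm_eq_abs]
      refine ((hFLP A D J k v t t' x h (Complex.exp (θ * Complex.I) • h') l
        (Complex.exp (θ * Complex.I) • l') hW hW' hx).2.2.2.1).trans (le_of_eq ?_)
      rw [← smul_sub, norm_smul, Complex.norm_exp_ofReal_mul_I, one_mul]
    refine (intervalIntegral.norm_integral_le_of_norm_le_const fun θ _ => hb θ).trans
      (le_of_eq ?_)
    rw [sub_zero, abs_of_pos Real.two_pi_pos]
    ring
  · intro α β hα hβ
    have hγ : ‖β * (starRingEnd ℂ) α‖ = 1 := by
      rw [norm_mul, RCLike.norm_conj, hα, hβ, one_mul]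
    obtain ⟨f, hf⟩ : ∃ f : ℝ, β * (starRingEnd ℂ) α = Complex.exp (f * Complex.I) := by
      refine ⟨(β * (starRingEnd ℂ) α).arg, ?_⟩
      have h1 := Complex.norm_mul_exp_arg_mul_I (β * (starRingEnd ℂ) α)
      rw [hγ, Complex.ofReal_one, one_mul] at h1
      exact h1.symm
    have hαα : α * (starRingEnd ℂ) α = 1 := by
      rw [Complex.mul_conj, Complex.normSq_eq_norm_sq, hα]; simp
    have hFV : ∀ θ : ℝ, FV v t x (α • h) (Complex.exp (θ * Complex.I) • (β • h')) =
        FV v t x h (Complex.exp (((θ + f : ℝ) : ℂ) * Complex.I) • h') := by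
      intro θ
      have h1 : Complex.exp (θ * Complex.I) • (β • h') =
          α • (Complex.exp (((θ + f : ℝ) : ℂ) * Complex.I) • h') := by
        rw [smul_smul, smul_smul]
        congr 1
        have h2 : Complex.exp (((θ + f : ℝ) : ℂ) * Complex.I) =
            Complex.exp (θ * Complex.I) * (β * (starRingEnd ℂ) α) := by
          rw [hf, ← Complex.exp_add]
          congr 1
          push_cast; ring
        rw [h2]
        linear_combination (-Complex.exp (θ * Complex.I) * β) * hαα
      rw [h1]
      exact (hFLP A D J k v t t x h (Complex.exp (((θ + f : ℝ) : ℂ) * Complex.I) • h') h h' hW hW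
        hx).2.2.2.2 α hα
    obtain ⟨H, hH⟩ : ∃ H : ℝ → ℂ, H = fun u : ℝ =>
      ((FV v t x h (Complex.exp (u * Complex.I) • h') : ℝ) : ℂ) *
        Complex.exp (-(w * u) * Complex.I) := ⟨_, rfl⟩
    have hper : Function.Periodic H (2 * Real.pi) := by
      intro u
      rw [hH]
      simp only
      have h1 : Complex.exp (((u + 2 * Real.pi : ℝ) : ℂ) * Complex.I) =
          Complex.exp (u * Complex.I) := by
        rw [Complex.exp_eq_exp_iff_exists_int]
        exact ⟨1, by push_cast; ring⟩
      have h2 : Complex.exp (-(w * ((u + 2 * Real.pi : ℝ) : ℂ)) * Complex.I) =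
          Complex.exp (-(w * (u : ℂ)) * Complex.I) := by
        rw [Complex.exp_eq_exp_iff_exists_int]
        exact ⟨-w, by push_cast; ring⟩
      rw [h1, h2]
    have hI : ∀ θ : ℝ, ((FV v t x (α • h) (Complex.exp (θ * Complex.I) • (β • h')) : ℝ) : ℂ) *
        Complex.exp (-(w * θ) * Complex.I) =
        (β * (starRingEnd ℂ) α) ^ w * H (θ + f) := by
      intro θ
      rw [hFV θ, hH, hf, ← Complex.exp_int_mul]
      simp only
      have h1 : Complex.exp (-(w * (θ : ℂ)) * Complex.I) =
          Complex.exp (w * (f * Complex.I)) *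
            Complex.exp (-(w * ((θ + f : ℝ) : ℂ)) * Complex.I) := by
        rw [← Complex.exp_add]
        congr 1
        push_cast; ring
      rw [h1]; ring
    have hSV : SV v w t x h h' = ∫ u in (0 : ℝ)..(2 * Real.pi), H u := by
      unfold SV
      rw [hH]
    have hSV' : SV v w t x (α • h) (β • h') =
        ∫ θ in (0 : ℝ)..(2 * Real.pi), (β * (starRingEnd ℂ) α) ^ w * H (θ + f) := by
      unfold SV
      exact intervalIntegral.integral_congr fun θ _ => hI θ
    rw [hSV, hSV', intervalIntegral.integral_const_mul,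
      intervalIntegral.integral_comp_add_right (f := H) f]
    congr 1
    have h3 := hper.intervalIntegral_add_eq f 0
    rw [zero_add] at h3
    rw [← h3, zero_add, add_comm f]

end Pool.Agent.H59.FA
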