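import Pool.Agent.H30.FA.TA

/-!
# Row TRN: truncation of the overlaps
-/

set_option autoImplicit false

namespace Pool.Agent.H59.FA

open Pool.Agent.H30.FA

theorem pow_diff (n : ℕ) {p q : ℝ} (hp : 0 ≤ p) (hp1 : p ≤ 1) (hq : 0 ≤ q) (hq1 : q ≤ 1) :
    |p ^ n - q ^ n| ≤ n * |p - q| := by
  induction n with
  | zero => simp
  | succ n ih =>
    have h1 : p ^ (n + 1) - q ^ (n + 1) = p ^ n * (p - q) + (p ^ n - q ^ n) * q := by ring
    rw [h1]
    refine (abs_add_le _ _).trans ?_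
    rw [abs_mul, abs_mul, abs_of_nonneg (pow_nonneg hp n), abs_of_nonneg hq]
    have h2 : p ^ n ≤ 1 := pow_le_one₀ hp hp1
    have h3 : p ^ n * |p - q| ≤ 1 * |p - q| := mul_le_mul_of_nonneg_right h2 (abs_nonneg _)
    have h4 : |p ^ n - q ^ n| * q ≤ |p ^ n - q ^ n| * 1 :=
      mul_le_mul_of_nonneg_left hq1 (abs_nonneg _)
    push_cast
    linarith

theorem jensen_sq {J : Type} [Fintype J] (t f : J → ℝ) (ht : ∀ j, 0 ≤ t j)
    (hs : ∑ j, t j = 1) : (∑ j, t j * f j) ^ 2 ≤ ∑ j, t j * f j ^ 2 := by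
  obtain ⟨m, hm⟩ : ∃ m, m = ∑ j, t j * f j := ⟨_, rfl⟩
  rw [← hm]
  have h0 : 0 ≤ ∑ j, t j * (f j - m) ^ 2 :=
    Finset.sum_nonneg fun j _ => mul_nonneg (ht j) (sq_nonneg _)
  have h1 : ∑ j, t j * (f j - m) ^ 2 = ∑ j, t j * f j ^ 2 - 2 * m * ∑ j, t j * f j +
      m ^ 2 * ∑ j, t j := by
    rw [Finset.mul_sum, Finset.mul_sum, ← Finset.sum_sub_distrib, ← Finset.sum_add_distrib]
    refine Finset.sum_congr rfl fun j _ => ?_
    ring
  rw [h1, hs, ← hm] at h0
  nlinarith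

section
variable {E : Type} [NormedAddCommGroup E] [InnerProductSpace ℂ E] {d : ℕ}

/-- the projection to the span of the basis vectors with index in `S` -/
noncomputable def prj (e : OrthonormalBasis (Fin d) ℂ E) (S : Finset (Fin d)) (y : E) : E :=
  ∑ a ∈ S, (inner ℂ (e a) y : ℂ) • e a

theorem inner_prj (e : OrthonormalBasis (Fin d) ℂ E) (S : Finset (Fin d)) (z y : E) :
    inner ℂ z (prj e S y) = pin e S z y := by
  unfold prj pin
  rw [inner_sum]
  refine Finset.sum_congr rfl fun a _ => ?_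
  rw [inner_smul_right, mul_comm]

theorem inner_e_prj (e : OrthonormalBasis (Fin d) ℂ E) (S : Finset (Fin d)) (y : E) (b : Fin d) :
    inner ℂ (e b) (prj e S y) = if b ∈ S then inner ℂ (e b) y else 0 := by
  unfold prj
  rw [inner_sum]
  have h1 : ∀ a ∈ S, inner ℂ (e b) ((inner ℂ (e a) y : ℂ) • e a) =
      if b = a then inner ℂ (e a) y else 0 := by
    intro a _
    rw [inner_smul_right, orthonormal_iff_ite.1 e.orthonormal b a]
    split_ifs <;> simp
  rw [Finset.sum_congr rfl h1, Finset.sum_ite_eq]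

theorem norm_inner_symm' (x y : E) : ‖inner ℂ x y‖ = ‖inner ℂ y x‖ := by
  rw [← inner_conj_symm, RCLike.norm_conj]

end

theorem pf_TRN (hBAS : T_BAS) : T_TRN := by
  intro κ J _ d C g A j hr
  obtain ⟨-, hr0, -, hr1, -, -, hmom, -, hpin, hnorm, -⟩ := hBAS κ J (V d) d C
  -- the eigenvalues
  have hra : ∀ a : Fin d, A ≤ (a : ℕ) → C.r a ≤ 1 / ((A : ℝ) + 1) := by
    intro a ha
    have h1 : ((a : ℕ) + 1 : ℝ) * C.r a ≤ 1 := by
      have h2 : ∑ _b ∈ Finset.Iic a, C.r a ≤ ∑ b ∈ Finset.Iic a, C.r b :=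
        Finset.sum_le_sum fun b hb => hr (Finset.mem_Iic.1 hb)
      have h3 : ∑ b ∈ Finset.Iic a, C.r b ≤ ∑ b, C.r b :=
        Finset.sum_le_sum_of_subset_of_nonneg (Finset.subset_univ _) (fun b _ _ => hr0 b)
      rw [Finset.sum_const, nsmul_eq_mul, Fin.card_Iic] at h2
      push_cast at h2
      linarith
    rw [le_div_iff₀ (by positivity)]
    have h4 : (A : ℝ) ≤ ((a : ℕ) : ℝ) := by exact_mod_cast ha
    nlinarith [hr0 a]
  obtain ⟨S, hS⟩ : ∃ S : Finset (Fin d), S = Finset.univ.filter fun a : Fin d => (a : ℕ) < A :=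
    ⟨_, rfl⟩
  obtain ⟨T, hT⟩ : ∃ T : Finset (Fin d), T = Finset.univ.filter fun a : Fin d => ¬ (a : ℕ) < A :=
    ⟨_, rfl⟩
  rw [← hS]
  have hprj : ∀ (U : Finset (Fin d)) (y : V d), ‖prj C.e U y‖ ≤ ‖y‖ := by
    intro U y
    refine le_of_sq_le_sq ?_ (norm_nonneg _)
    rw [hnorm, hnorm y]
    refine Finset.sum_le_sum fun a _ => ?_
    rw [norm_inner_symm' (prj C.e U y), norm_inner_symm' y, inner_e_prj]
    split_ifs
    · exact le_rfl
    · rw [norm_zero, zero_pow two_ne_zero]; exact sq_nonneg _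
  have hsplit : ∀ z y : V d, inner ℂ z y = pin C.e S z y + pin C.e T z y := by
    intro z y
    rw [hpin, hS, hT]
    unfold pin
    rw [Finset.sum_filter_add_sum_filter_not]
  have hterm : ∀ i k, |‖inner ℂ (C.x i) (g (C.x k))‖ ^ (2 * j) -
      ‖pin C.e S (C.x i) (g (C.x k))‖ ^ (2 * j)| ≤
      2 * j * ‖pin C.e T (C.x i) (g (C.x k))‖ := by
    intro i k
    have hgx : ‖g (C.x k)‖ = 1 := by rw [LinearIsometryEquiv.norm_map, C.norm_x]
    have hp1 : ‖inner ℂ (C.x i) (g (C.x k))‖ ≤ 1 := by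
      refine (norm_inner_le_norm _ _).trans ?_
      rw [C.norm_x, hgx, one_mul]
    have hq1 : ‖pin C.e S (C.x i) (g (C.x k))‖ ≤ 1 := by
      rw [← inner_prj]
      refine (norm_inner_le_norm _ _).trans ?_
      rw [C.norm_x, one_mul]
      exact (hprj S _).trans hgx.le
    refine (pow_diff (2 * j) (norm_nonneg _) hp1 (norm_nonneg _) hq1).trans ?_
    push_cast
    refine mul_le_mul_of_nonneg_left ?_ (by positivity)
    refine (abs_norm_sub_norm_le _ _).trans (le_of_eq ?_)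
    rw [hsplit, add_sub_cancel_left]
  have hk : ∀ k, ∑ i, C.t i * ‖pin C.e T (C.x i) (g (C.x k))‖ ≤ 1 / Real.sqrt (A + 1) := by
    intro k
    have hgx : ‖g (C.x k)‖ = 1 := by rw [LinearIsometryEquiv.norm_map, C.norm_x]
    have h1 := jensen_sq C.t (fun i => ‖pin C.e T (C.x i) (g (C.x k))‖) C.t_nonneg C.t_sum
    have h2 : ∑ i, C.t i * ‖pin C.e T (C.x i) (g (C.x k))‖ ^ 2 ≤ 1 / ((A : ℝ) + 1) := by
      simp only [← inner_prj]
      rw [hmom]
      calc ∑ a, C.r a * ‖inner ℂ (prj C.e T (g (C.x k))) (C.e a)‖ ^ 2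
          ≤ ∑ a, 1 / ((A : ℝ) + 1) * ‖inner ℂ (g (C.x k)) (C.e a)‖ ^ 2 := by
            refine Finset.sum_le_sum fun a _ => ?_
            rw [norm_inner_symm' (prj C.e T (g (C.x k))), inner_e_prj]
            by_cases ha : a ∈ T
            · rw [if_pos ha, norm_inner_symm' (C.e a)]
              refine mul_le_mul_of_nonneg_right (hra a ?_) (sq_nonneg _)
              rw [hT] at ha
              exact not_lt.1 (Finset.mem_filter.1 ha).2
            · rw [if_neg ha, norm_zero]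
              have : (0 : ℝ) ≤ 1 / ((A : ℝ) + 1) * ‖inner ℂ (g (C.x k)) (C.e a)‖ ^ 2 := by
                positivity
              simpa using this
        _ = 1 / ((A : ℝ) + 1) := by
            rw [← Finset.mul_sum, ← hnorm, hgx]; ring
    refine le_of_sq_le_sq ?_ (by positivity)
    rw [div_pow, one_pow, Real.sq_sqrt (by positivity)]
    exact h1.trans h2
  calc ∑ i, ∑ k, C.t i * C.t k * |‖inner ℂ (C.x i) (g (C.x k))‖ ^ (2 * j) -
        ‖pin C.e S (C.x i) (g (C.x k))‖ ^ (2 * j)|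
      ≤ ∑ i, ∑ k, C.t i * C.t k * (2 * j * ‖pin C.e T (C.x i) (g (C.x k))‖) :=
        Finset.sum_le_sum fun i _ => Finset.sum_le_sum fun k _ =>
          mul_le_mul_of_nonneg_left (hterm i k) (mul_nonneg (C.t_nonneg i) (C.t_nonneg k))
    _ = 2 * j * ∑ k, C.t k * ∑ i, C.t i * ‖pin C.e T (C.x i) (g (C.x k))‖ := by
        rw [Finset.sum_comm, Finset.mul_sum]
        refine Finset.sum_congr rfl fun k _ => ?_
        rw [Finset.mul_sum, Finset.mul_sum]
        refine Finset.sum_congr rfl fun i _ => ?_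
        ring
    _ ≤ 2 * j * ∑ k, C.t k * (1 / Real.sqrt (A + 1)) := by
        refine mul_le_mul_of_nonneg_left ?_ (by positivity)
        exact Finset.sum_le_sum fun k _ => mul_le_mul_of_nonneg_left (hk k) (C.t_nonneg k)
    _ = 2 * j / Real.sqrt (A + 1) := by
        rw [← Finset.sum_mul, C.t_sum]; ring

end Pool.Agent.H59.FA
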