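import Pool.Agent.H30.FA.TC

/-!
# Row ABS: the algebraic theorem
-/

set_option autoImplicit false

namespace Pool.Agent.H59.FA

open Pool.Agent.H59 Pool.Agent.H48.FR Pool.Agent.H58.FL Pool.Agent.H30.FA

theorem ev_bd_zero (hCPL : T_CPL) (hEVB : T_EVB) (hEVL : T_EVL) (hLOW : T_LOW) {X : Type}
    {K : Set (Set X)} (hD : Down K) {g : X → X → X → ℝ} (hg : Cl2 K g) (n : ℕ)
    {b : LL (2 * n + 2) X} (hb : On K b) :
    ev (2 * n) (H58.FL.PL (List.replicate n g)) (bdL (2 * n + 1) X b) = 0 := by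
  have hdep : Dep (2 * n) (H58.FL.PL (List.replicate n g)) := by
    have h1 := (hLOW X).2.2.2.2.2.2.2.2.1 (List.replicate n g)
    rwa [List.length_replicate] at h1
  rw [hEVB X (2 * n) _ b hdep]
  have h2 := (hEVL X (2 * n + 1)).2.2.2.2.1 (dl (2 * n) (H58.FL.PL (List.replicate n g)))
    (fun _ => 0) b (by
      intro t ht
      have h3 := hCPL X K hD (List.replicate n g) (fun g' hg' => by
        rw [List.eq_of_mem_replicate hg']; exact hg) (ex t) (by
        refine hD _ (hb t ht) _ ?_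
        rintro y ⟨i, -, hi⟩
        rw [← hi]
        exact ⟨_, rfl⟩)
      rwa [List.length_replicate] at h3)
  rw [h2]
  unfold ev
  simp

theorem cl2_mono {X : Type} {K K' : Set (Set X)} (h : K' ⊆ K) {g : X → X → X → ℝ}
    (hg : Cl2 K g) : Cl2 K' g := fun S hS => hg S (h hS)

theorem pf_ABS (hSPL : T_SPL) (hNIL : T_NIL) (hITW : T_ITW) (hCHG : T_CHG) (hBNX : T_BNX)
    (hARI : T_ARI) (hCPL : T_CPL) (hEVB : T_EVB) (hEVL : T_EVL) (hLOW : T_LOW) : T_ABS := by
  intro X K₁ K₂ hD1 hD2 u u' c θ θ₁ θ₂ m η w hw hu1 hc2 hu' hui hu'i hcθ hnil n hn b hb hbd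
  have hD : Down (K₁ ∩ K₂) := fun S hS T hT => ⟨hD1 S hS.1 T hT, hD2 S hS.2 T hT⟩
  obtain ⟨b₁, b₂, hbb, hb1, hb2, hbe⟩ := hSPL X K₁ K₂ hD1 hD2 (2 * n) b hb hbd
  have hu : Cl2 (K₁ ∩ K₂) u := cl2_mono Set.inter_subset_left hu1
  have hc : Cl2 (K₁ ∩ K₂) c := cl2_mono Set.inter_subset_right hc2
  have hz : bdL (2 * n) X (bdL (2 * n + 1) X b₂) = 0 := bdL_bdL (2 * n) b₂
  obtain ⟨z, hzdef⟩ : ∃ z, z = bdL (2 * n + 1) X b₂ := ⟨_, rfl⟩
  rw [← hzdef] at hz hbe
  -- the value
  have hval : ev (2 * n) (H58.FL.PL (List.replicate n u)) (bdL (2 * n + 1) X b) =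
      ev (2 * n) (H58.FL.PL (List.replicate n u)) z := by
    rw [hbb, map_add, (hEVL X (2 * n)).1, ev_bd_zero hCPL hEVB hEVL hLOW hD1 hu1 n hb1, zero_add,
      hzdef]
  have hcz : ev (2 * n) (H58.FL.PL (List.replicate n c)) z = 0 := by
    rw [hzdef]; exact ev_bd_zero hCPL hEVB hEVL hLOW hD2 hc2 n hb2
  -- the difference
  obtain ⟨y, hy⟩ : ∃ y : X → X → X → ℝ, y = fun a b c => u a b c - u' a b c := ⟨_, rfl⟩
  have hyc : Cl2 (K₁ ∩ K₂) y := by
    intro S hS p hp q hq r hr s hs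
    have h1 := hu S hS p hp q hq r hr s hs
    have h2 := hu' S hS p hp q hq r hr s hs
    rw [hy]
    unfold d2 at h1 h2 ⊢
    linarith
  have hyi : ∃ ϑ : X → X → ℝ, ∀ S ∈ K₁ ∩ K₂, ∀ p ∈ S, ∀ q ∈ S, ∀ r ∈ S,
      ∃ j : ℤ, y p q r - d1 ϑ p q r = j := by
    refine ⟨fun a b => θ₁ a b - θ₂ a b, fun S hS p hp q hq r hr => ?_⟩
    obtain ⟨j, hj⟩ := hui S hS p hp q hq r hr
    obtain ⟨j', hj'⟩ := hu'i S hS p hp q hq r hr
    refine ⟨j - j', ?_⟩
    rw [hy]
    unfold d1 at hj hj' ⊢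
    push_cast
    linarith
  -- the integral values
  have hW : ∀ j, j ≤ n → ∃ N : ℤ,
      ev (2 * n) (H58.FL.PL (List.replicate j y ++ List.replicate (n - j) u')) z = N := by
    intro j hj
    refine hITW X (K₁ ∩ K₂) hD _ ?_ n ?_ z hbe hz
    · intro g hg
      rcases List.mem_append.1 hg with h | h
      · rw [List.eq_of_mem_replicate h]; exact ⟨hyc, hyi⟩
      · rw [List.eq_of_mem_replicate h]; exact ⟨hu', θ₂, hu'i⟩
    · rw [List.length_append, List.length_replicate, List.length_replicate]; omega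
  obtain ⟨B, hB⟩ : ∃ B : ℕ → ℤ, ∀ j, j ≤ n →
      ev (2 * n) (H58.FL.PL (List.replicate j y ++ List.replicate (n - j) u')) z = B j := by
    classical
    refine ⟨fun j => if h : j ≤ n then (hW j h).choose else 0, fun j hj => ?_⟩
    simp only [dif_pos hj]
    exact (hW j hj).choose_spec
  have hB0 : ∀ j, m ≤ j → j ≤ n → B j = 0 := by
    intro j hmj hjn
    have h1 := hNIL X (K₁ ∩ K₂) hD u u' m η w hw hu hu' hnil n
      (List.replicate (j - m) y ++ List.replicate (n - j) u') (by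
        intro g hg
        rcases List.mem_append.1 hg with h | h
        · rw [List.eq_of_mem_replicate h]; exact hyc
        · rw [List.eq_of_mem_replicate h]; exact hu')
      (by rw [List.length_append, List.length_replicate, List.length_replicate]; omega) z hbe hz
    rw [← hy, ← List.append_assoc, List.replicate_append_replicate,
      Nat.add_sub_cancel' hmj, hB j hjn] at h1
    exact_mod_cast h1
  have hsum : ∀ r : ℝ, ev (2 * n) (H58.FL.PL (List.replicate n (fun a b c => y a b c + r * u' a b c))) z =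
      ∑ j ∈ Finset.range (n + 1), (n.choose j : ℝ) * r ^ (n - j) * (B j : ℝ) := by
    intro r
    rw [hBNX X (K₁ ∩ K₂) hD y u' r hyc hu' n z hbe hz]
    refine Finset.sum_congr rfl fun j hj => ?_
    rw [hB j (Nat.lt_succ_iff.1 (Finset.mem_range.1 hj))]
  have h2 : ∑ j ∈ Finset.range (n + 1), (n.choose j : ℤ) * 2 ^ (n - j) * B j = 0 := by
    have h3 := hsum 2
    rw [hCHG X (K₁ ∩ K₂) hD (fun a b c => y a b c + 2 * u' a b c) c θ (by
        intro S hS p hp q hq r hr s hs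
        have h1 := hyc S hS p hp q hq r hr s hs
        have h2 := hu' S hS p hp q hq r hr s hs
        unfold d2 at h1 h2 ⊢
        linarith) hc (by
        intro S hS p hp q hq r hr
        rw [← hcθ S hS p hp q hq r hr, hy]
        ring) n z hbe hz, hcz] at h3
    exact_mod_cast h3.symm
  have h1 : ev (2 * n) (H58.FL.PL (List.replicate n u)) z =
      ∑ j ∈ Finset.range (n + 1), (n.choose j : ℝ) * (B j : ℝ) := by
    have h3 := hsum 1
    have h4 : (fun a b c => y a b c + 1 * u' a b c) = u := by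
      funext p q r
      rw [hy]; ring
    rw [h4] at h3
    rw [h3]
    refine Finset.sum_congr rfl fun j _ => ?_
    rw [one_pow, mul_one]
  obtain ⟨N, hN⟩ := hARI n m B hn hB0 h2
  refine ⟨N, ?_⟩
  rw [hval, h1]
  exact_mod_cast hN

end Pool.Agent.H59.FA
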