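import Pool.Agent.H30.FA.TC

/-!
# Row EIG: existence of the basis of eigenvectors
-/

set_option autoImplicit false

namespace Pool.Agent.H59.FA

open Pool.Agent.H59 Pool.Agent.H48.FR Pool.Agent.H58.FL Pool.Agent.H30.FA

/-- the second moment -/
noncomputable def mm {J : Type} [Fintype J] {d : ℕ} (t : J → ℝ) (x : J → V d) :
    V d →ₗ[ℂ] V d where
  toFun y := ∑ j, (t j : ℂ) • ((inner ℂ (x j) y : ℂ) • x j)
  map_add' y z := by
    rw [← Finset.sum_add_distrib]
    refine Finset.sum_congr rfl fun j _ => ?_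
    rw [inner_add_right, add_smul, smul_add]
  map_smul' c y := by
    rw [RingHom.id_apply, Finset.smul_sum]
    refine Finset.sum_congr rfl fun j _ => ?_
    rw [inner_smul_right, smul_smul, smul_smul, smul_smul]
    congr 1
    ring

theorem mm_apply {J : Type} [Fintype J] {d : ℕ} (t : J → ℝ) (x : J → V d) (y : V d) :
    mm t x y = ∑ j, (t j : ℂ) • ((inner ℂ (x j) y : ℂ) • x j) := rfl

theorem inner_mm {J : Type} [Fintype J] {d : ℕ} (t : J → ℝ) (x : J → V d) (y z : V d) :
    inner ℂ y (mm t x z) = ∑ j, (t j : ℂ) * (inner ℂ y (x j) * inner ℂ (x j) z) := by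
  rw [mm_apply, inner_sum]
  refine Finset.sum_congr rfl fun j _ => ?_
  rw [inner_smul_right, inner_smul_right]
  ring

theorem mm_symm {J : Type} [Fintype J] {d : ℕ} (t : J → ℝ) (x : J → V d) :
    (mm t x).IsSymmetric := by
  intro y z
  rw [inner_mm, mm_apply, sum_inner]
  refine Finset.sum_congr rfl fun j _ => ?_
  rw [inner_smul_left, inner_smul_left, Complex.conj_ofReal, inner_conj_symm]

theorem pf_EIG : T_EIG := by
  intro κ J _ d t x hW hx hκ
  have hn : Module.finrank ℂ (V d) = d := finrank_euclideanSpace_fin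
  refine ⟨{ t := t, x := x, e := (mm_symm t x).eigenvectorBasis hn,
            r := (mm_symm t x).eigenvalues hn, t_nonneg := hW.1, t_sum := hW.2, norm_x := hx,
            adj := hκ, diag := ?_ }, rfl, rfl, (mm_symm t x).eigenvalues_antitone hn⟩
  intro a b
  rw [← inner_mm, (mm_symm t x).apply_eigenvectorBasis hn b, inner_smul_right,
    orthonormal_iff_ite.1 ((mm_symm t x).eigenvectorBasis hn).orthonormal a b]
  by_cases hab : a = b
  · rw [if_pos hab, if_pos hab, hab, mul_one]; rfl
  · rw [if_neg hab, if_neg hab, mul_zero]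

end Pool.Agent.H59.FA
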