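import Pool.Agent.H30.FA.TC

/-!
# Row FRI: the phase cochain is closed, and exact modulo integers
-/

set_option autoImplicit false

namespace Pool.Agent.H59.FA

open Pool.Agent.H59 Pool.Agent.H48.FR Pool.Agent.H58.FL Pool.Agent.H30.FA

theorem pf_FRI (hSMC : T_SMC) (hINT : T_INT) : T_FRI := by
  intro X E _ _ f K hf hK
  have hne : ∀ S ∈ K, ∀ x ∈ S, ∀ y ∈ S, (inner ℂ (f x) (f y) : ℂ) ≠ 0 := by
    intro S hS x hx y hy h0
    have h1 := hK S hS x hx y hy
    rw [h0, norm_zero] at h1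
    norm_num at h1
  refine ⟨?_, fun x y => (inner ℂ (f x) (f y)).arg / (2 * Real.pi), ?_⟩
  · intro S hS x hx y hy z hz w hw
    have h := hSMC E (f x) (f y) (f z) (f w) (hf x) (hf y) (hf z) (hf w)
      (hK S hS x hx y hy) (hK S hS x hx z hz) (hK S hS x hx w hw) (hK S hS y hy z hz)
      (hK S hS y hy w hw) (hK S hS z hz w hw)
    unfold mn at h
    unfold d2 up
    rw [← h]; ring
  · intro S hS x hx y hy z hz
    obtain ⟨j, hj⟩ := (hINT E).2 (f x) (f y) (f z) (hne S hS x hx y hy) (hne S hS y hy z hz)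
      (hne S hS x hx z hz)
    exact ⟨j, hj⟩

end Pool.Agent.H59.FA
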